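import Pool.Agent.H430.Ft.Shp3

/-!
Approximation of a few points of `D` at each place by closed points of degree `r`: the sharp
constants between the theorems of Schmidt (`m = 1`) and of Wirsing (`m = r`), without exceptional
points, on the projective line and, for hyperplanes which osculate a rational normal curve, in all
dimensions.

`K` is a number field, `t ↦ (1 : t : ... : t ^ n)` parametrises the hyperplanes
`lf x t = ∑ x_k t ^ k = 0` of `P ^ n` which osculate a rational normal curve; for `n = 1` these are
the `K`-rational points of the affine line.  `x` is a point of `P ^ n` with coordinates in an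
extension `L` of degree `r` of `K`, and `prox v t x` is its proximity at the place `v` of `K` to the
hyperplane given by `t`, summed over the places of `L` above `v`.  At each place of `S` at most `m`
of the hyperplanes are taken into account.

The constant is `opt R m`, that is `R + m` if `m` divides `R` and `R + m - 1` otherwise, where
`R = n * r` and `m ≤ R`.  Part (2): for `n = 1` it is the best possible one, for every number
field and all sufficiently large divisors, if `m` divides `r` or `m ≤ r / m + r % m + 1` (for
instance if `r ≥ m * (m - 2)`).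

The upper bound `R + m` holds for all curves and in all dimensions: `FewTargetsOnCurves` (helper426)
and `MP_71c16a_nt.FewTargets`.
-/

set_option autoImplicit false

namespace Pool.Agent.Results.MP_6f1c57_nt.ExactConstants

open Finset NumberField Height Module
open Pool.Agent.W180.OP (Pl)
open Pool.Agent.H430.Ft (lf prox opt)

theorem result {K : Type} [Field K] [NumberField K] {q : ℕ} (a : Fin q → K)
    (ha : Function.Injective a) :
    (∀ (n r : ℕ) (S : Finset (Pl K)) (ε : ℝ), 0 < ε → ∃ C : ℝ,
      ∀ (L : Type) [Field L] [NumberField L] [Algebra K L], finrank K L = r →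
        ∀ x : Fin (n + 1) → L, x ≠ 0 → (∀ i, lf x (a i) ≠ 0) →
        ∀ (m : ℕ) (I : Pl K → Finset (Fin q)), (∀ v ∈ S, (I v).card ≤ m) →
          ∑ v ∈ S, ∑ i ∈ I v, prox v (a i) x ≤
            (opt (n * r) (min m (n * r)) + ε) * logHeight x + C) ∧
    (∀ r m : ℕ, 1 ≤ m → m ≤ r → (m ∣ r ∨ m ≤ r / m + r % m + 1) → opt r m ≤ q →
      ∃ (S : Finset (Pl K)) (I : Pl K → Finset (Fin q)), (∀ v, (I v).card ≤ m) ∧
        ∀ c C : ℝ, c < opt r m →
          ∃ (L : Type) (_ : Field L) (_ : NumberField L) (_ : Algebra K L) (x : L),
            IntermediateField.adjoin K {x} = ⊤ ∧ finrank K L = r ∧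
            (∀ i, lf ![-x, 1] (a i) ≠ 0) ∧
            c * logHeight ![-x, 1] + C < ∑ v ∈ S, ∑ i ∈ I v, prox v (a i) ![-x, 1]) := by
  refine ⟨fun n r S ε hε => ?_, fun r m hm hmr h hq => ?_⟩
  · obtain ⟨C, _, h⟩ := Pool.Agent.H430.Ft.main_ft a ha n r S ε hε
    exact ⟨C, h⟩
  · exact Pool.Agent.H430.Ft.sharp a ha r m hm hmr h hq

end Pool.Agent.Results.MP_6f1c57_nt.ExactConstants
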