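import Pool.Agent.H426.Sub.CurveB

set_option autoImplicit false

/-!
# Points of bounded degree on curves: few targets at each place, generic cycles of conjugates

`C = {G = 0}` is an irreducible projective curve over a number field `K`, of any genus and with any
singularities, and `D i = C ∩ {w i = 0}`, `i < q`, are disjoint finite subschemes of `C`, for
instance points. At every place `v` in the finite set `S` the `D i` with `i` in a set `I v` are taken
into account. Then for the points `x` of `C` of degree `δ` over `K` which are in no `D i`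

* `∑ v ∈ S, ∑ i ∈ I v, γ i * m_{v, D i}(x) ≤ (δ + min t δ + ε) h(x) + C` if no `I v` has more than
  `t` elements, for instance for the `t` nearest `D i` at each place;
* `∑ v ∈ S, ∑ i ∈ I v, γ i * m_{v, D i}(x) ≤ (2 δ - μ + 1 + ε) h(x) + C` for all sets `I v` if the
  conjugates of `x` do not form a point of a closed subset `B` of `C ^ δ` of dimension less than `μ`,
  which does not depend on `S` (`μ ≤ δ`).

Here `γ i` is at most the supremum of the quotients `m / d` such that the forms of degree `d` in the
`m`-th power of the ideal sheaf of `D i` have no common zeros on `C` outside `D i`; if `C` is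
nonsingular at `D i`, this supremum is the quotient of the degrees of `C` and `D i` (Riemann-Roch).
So the constant `2 δ` of Wirsing and Vojta is replaced by `δ + t` for `t < δ` targets at each place
and by `2 δ - μ + 1` for cycles outside `B`; both are `δ + 1` in the extreme cases: the nearest
point at each place (`t = 1`), cycles outside a proper closed subset (`μ = δ`). `C` does not depend
on the sets `I v`.

Method. The forms in the definition of `γ i` are replaced by general ones, which have no common
zeros, and finitely many choices are enough for all points (Noetherian induction, `Sub.cover`). For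
hypersurface sections the first inequality is the theorem of helper430 in
`MP_71c16a_nt.FewTargets`, proved with our engine (`MP_71c16a_nt.TwoNTheorem`), and the second one our
`MP_651af7_nt.SchmidtNochka`: subspace theorem for the norms, weights of bases and Noetherian
induction.
-/

namespace Pool.Agent.Results.MP_6f1c57_nt.FewTargetsOnCurves

open NumberField IsDedekindDomain

/-- The point with homogeneous coordinates `x` is a common zero of the forms `G k`. -/
def On {K E : Type} [Field K] [Field E] [Algebra K E] {m s : ℕ}
    (G : Fin m → MvPolynomial (Fin s) K) (x : Fin s → E) : Prop :=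
  ∀ k, MvPolynomial.aeval x (G k) = 0

/-- `{G = 0}` is an irreducible projective curve over `K`, defined by a prime ideal generated by
the forms `G k`: its homogeneous coordinate ring has transcendence degree `2`. -/
def IsCurve {K : Type} [Field K] {m s : ℕ} (G : Fin m → MvPolynomial (Fin s) K) : Prop :=
  (∀ k, ∃ g, (G k).IsHomogeneous g) ∧ (Ideal.span (Set.range G)).IsPrime ∧
    Algebra.trdeg K (MvPolynomial (Fin s) K ⧸ Ideal.span (Set.range G)) = 2

/-- There are forms `P j` of degree `d` in the `m`-th power of the ideal sheaf of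
`D = C ∩ {w = 0}` whose common zeros on `C = {G = 0}` lie on `D`. For the chart where the `k`-th
coordinate is not zero the first condition is that a power of this coordinate times `P j` belongs
to the `m`-th power of the ideal of `D`. -/
def Separates {K : Type} [Field K] {M s p : ℕ} (G : Fin M → MvPolynomial (Fin s) K)
    (w : Fin p → MvPolynomial (Fin s) K) (m d : ℕ) : Prop :=
  ∃ (t a : ℕ) (P : Fin t → MvPolynomial (Fin s) K), (∀ j, (P j).IsHomogeneous d ∧
    ∀ k, MvPolynomial.X k ^ a * P j ∈ Ideal.span (Set.range w) ^ m ⊔ Ideal.span (Set.range G)) ∧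
    ∀ (E : Type) [Field E] [Algebra K E] (x : Fin s → E), x ≠ 0 → On G x → On P x → On w x

/-- `γ` is at most the supremum of the quotients `m / d` with `Separates G w m d`. -/
def AtMostDegree {K : Type} [Field K] {M s p : ℕ} (G : Fin M → MvPolynomial (Fin s) K)
    (w : Fin p → MvPolynomial (Fin s) K) (γ : ℝ) : Prop :=
  ∀ η : ℝ, 0 < η → ∃ m d : ℕ, 1 ≤ d ∧ γ - η ≤ (m : ℝ) / d ∧ Separates G w m d

/-- The polynomial in `δ` groups of `s` variables is homogeneous in each group. -/
def IsMultihomogeneous {K : Type} [Field K] {δ s : ℕ} (p : MvPolynomial (Fin δ × Fin s) K) :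
    Prop :=
  ∃ d : Fin δ → ℕ, ∀ β ∈ p.support, ∀ i, ∑ j, β (i, j) = d i

/-- The closed subset of `C ^ δ`, `C = {G = 0}`, defined by the multihomogeneous polynomials in `B`
has dimension less than `μ`: for each of its points `x`, with values in any field, the residue field
has transcendence degree less than `μ`. It is generated by the coordinates of representatives which
have a coordinate `1`. -/
def DimLT {K : Type} [Field K] {m s δ : ℕ} (G : Fin m → MvPolynomial (Fin s) K)
    (B : Set (MvPolynomial (Fin δ × Fin s) K)) (μ : ℕ) : Prop :=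
  ∀ (E : Type) [Field E] [Algebra K E] (x : Fin δ → Fin s → E), (∀ i, On G (x i)) →
    (∀ i, ∃ j, x i j = 1) →
    (∀ p ∈ B, MvPolynomial.aeval (fun ij : Fin δ × Fin s => x ij.1 ij.2) p = 0) →
    Algebra.trdeg K (Algebra.adjoin K (Set.range fun ij : Fin δ × Fin s => x ij.1 ij.2)) < μ

/-- The conjugates over `K` of the point `x` with coordinates in `L`, `[L : K] = δ`, form a point of
the closed subset of `C ^ δ` defined by `B`, in every order. -/
def ConjugatesOn {K L : Type} [Field K] [Field L] [Algebra K L] {δ s : ℕ}
    (B : Set (MvPolynomial (Fin δ × Fin s) K)) (x : Fin s → L) : Prop :=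
  ∀ (σ : Fin δ ≃ (L →ₐ[K] AlgebraicClosure K)), ∀ p ∈ B,
    MvPolynomial.aeval (fun ij : Fin δ × Fin s => σ ij.1 (x ij.2)) p = 0

/-- The places of a number field: the archimedean places and the primes. -/
abbrev Place (L : Type) [Field L] [NumberField L] : Type :=
  InfinitePlace L ⊕ HeightOneSpectrum (𝓞 L)

/-- The place `u` of `L` lies over the place `v` of `K`. -/
def Over {K L : Type} [Field K] [NumberField K] [Field L] [NumberField L] [Algebra K L] :
    Place K → Place L → Prop
  | Sum.inl v, Sum.inl u => u.comap (algebraMap K L) = v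
  | Sum.inr v, Sum.inr u => u.asIdeal.LiesOver v.asIdeal
  | _, _ => False

/-- The absolute value of a place. At a prime it is the normalised one, with the value
`(N v) ^ (-ord_v x)` at `x ≠ 0`. -/
noncomputable def absv {L : Type} [Field L] [NumberField L] : Place L → L → ℝ
  | Sum.inl w => fun x => w x
  | Sum.inr v => fun x => FinitePlace.mk v x

/-- The exponent of the absolute value of a place in the product formula: `1` at real places and at
primes, `2` at complex places. -/
noncomputable def weight {L : Type} [Field L] [NumberField L] : Place L → ℝ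
  | Sum.inl w => w.mult
  | Sum.inr _ => 1

/-- The local height of the closed subscheme `{w = 0}`, `w j` of degree `e j`, at the point with
homogeneous coordinates `x`: the minimum of the local heights of the forms `w j`. -/
noncomputable def weil {K L : Type} [Field K] [Field L] [NumberField L] [Algebra K L] {s p : ℕ}
    (v : Place L) (e : Fin p → ℕ) (w : Fin p → MvPolynomial (Fin s) K) (x : Fin s → L) : ℝ :=
  -Real.log (⨆ j, absv v (MvPolynomial.aeval x (w j)) / (⨆ k, absv v (x k)) ^ e j)

/-- The proximity function `m_{v, D}(x)` of the closed subscheme `D = {w = 0}` at the place `v` of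
`K`, in absolute normalisation: the sum of the local heights over the places above `v`, divided by
`[L : ℚ]`. -/
noncomputable def proximity {K L : Type} [Field K] [NumberField K] [Field L] [NumberField L]
    [Algebra K L] {s p : ℕ} (v : Place K) (e : Fin p → ℕ) (w : Fin p → MvPolynomial (Fin s) K)
    (x : Fin s → L) : ℝ :=
  (∑ᶠ u ∈ {u : Place L | Over v u}, weight u * weil u e w x) / Module.finrank ℚ L

/-- The absolute logarithmic height. -/
noncomputable def height {L : Type} [Field L] [NumberField L] {s : ℕ} (x : Fin s → L) : ℝ :=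
  Height.logHeight x / Module.finrank ℚ L

/-- Let `C = {G = 0}` be an irreducible projective curve over a number field `K` and let the
`D i = C ∩ {w i = 0}`, `i < q`, be finite and disjoint. Let `γ i ≥ 0` be at most the supremum of the
quotients `m / d` such that the forms of degree `d` in the `m`-th power of the ideal sheaf of `D i`
have no common zeros on `C` outside `D i`. Let `δ ≥ 1` and `μ ≤ δ`. For every `ε > 0` there is a
closed subset `B` of `C ^ δ` of dimension less than `μ` such that for every finite set `S` of places
of `K` there is a constant with the following properties. Let `I v` be sets of indices, and let `x`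
be a point of `C` with coordinates in a number field `L` of degree `δ` over `K` which is in no
`D i`. Then the sum over `v` in `S` and `i` in `I v` of `γ i * m_{v, D i}(x)` is

* at most `(δ + min t δ + ε) h(x)` plus the constant if no `I v` has more than `t` elements;
* at most `(2 δ - μ + 1 + ε) h(x)` plus the constant if the conjugates of `x` do not form a point
  of `B`. -/
theorem result (K : Type) [Field K] [NumberField K] (m s q δ μ : ℕ) (hδ : 1 ≤ δ) (hμ : μ ≤ δ)
    (G : Fin m → MvPolynomial (Fin s) K) (hC : IsCurve G)
    (p : Fin q → ℕ) (e : ∀ i, Fin (p i) → ℕ) (w : ∀ i, Fin (p i) → MvPolynomial (Fin s) K)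
    (hw : ∀ i j, (w i j).IsHomogeneous (e i j))
    (hfin : ∀ i, ∃ j, w i j ∉ Ideal.span (Set.range G))
    (hdisj : ∀ i i', i ≠ i' → ∀ (E : Type) [Field E] [Algebra K E] (x : Fin s → E),
      On G x → On (w i) x → On (w i') x → x = 0)
    (γ : Fin q → ℝ) (hγ0 : ∀ i, 0 ≤ γ i) (hγ : ∀ i, AtMostDegree G (w i) (γ i))
    (ε : ℝ) (hε : 0 < ε) :
    ∃ B : Set (MvPolynomial (Fin δ × Fin s) K), (∀ p ∈ B, IsMultihomogeneous p) ∧ DimLT G B μ ∧
      ∀ S : Finset (Place K), ∃ C : ℝ, ∀ (I : Place K → Finset (Fin q))
        (L : Type) [Field L] [NumberField L] [Algebra K L], Module.finrank K L = δ →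
        ∀ x : Fin s → L, x ≠ 0 → On G x → (∀ i, ¬ On (w i) x) →
          (∀ t : ℕ, (∀ v ∈ S, (I v).card ≤ t) →
            ∑ v ∈ S, ∑ i ∈ I v, γ i * proximity v (e i) (w i) x ≤
              (δ + min (t : ℝ) δ + ε) * height x + C) ∧
          (¬ ConjugatesOn B x → ∑ v ∈ S, ∑ i ∈ I v, γ i * proximity v (e i) (w i) x ≤
            (2 * δ - μ + 1 + ε) * height x + C) := by
  classical
  have hweil : ∀ (L : Type) [Field L] [NumberField L] [Algebra K L] (v : Place L) {p : ℕ}
      (e : Fin p → ℕ) (w : Fin p → MvPolynomial (Fin s) K)
      (x : Fin s → L), weil v e w x =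
      Pool.Agent.H426.Sub.slam (Pool.Agent.W180.OP.av v) e w x := by
    intro L _ _ _ v p e w x
    cases v <;> rfl
  have hwt : ∀ (L : Type) [Field L] [NumberField L] (v : Place L),
      weight v = Pool.Agent.W180.OP.wt v := by
    intro L _ _ v
    cases v <;> rfl
  have hover : ∀ (L : Type) [Field L] [NumberField L] [Algebra K L] (v : Place K) (u : Place L),
      Over v u ↔ u ∈ Pool.Agent.NH28.ab L v := by
    intro L _ _ _ v u
    rw [Pool.Agent.NH28.mem_ab]
    cases v <;> cases u <;> exact Iff.rfl
  obtain ⟨hG, hp, hdim⟩ := hC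
  choose g hG using hG
  have hpos := Pool.Agent.H426.Sub.pos_curve hp hdim p w hfin
    (fun i i' hne E _ _ x h1 h2 h3 => hdisj i i' hne E x h1 h2 h3)
  obtain ⟨B, hBm, hBs, hB⟩ := Pool.Agent.H426.Sub.both (N := 1) (μ := μ) hδ (by omega) G g hG p e
    w hw hpos γ hγ0
    (fun i η hη => by
      obtain ⟨m, d, hd, hmd, t, a, P, hP, hPb⟩ := hγ i η hη
      exact ⟨m, d, hd, hmd, t, a, P, hP, fun E _ _ x hx h1 h2 => hPb E x hx h1 h2⟩) hε
  refine ⟨B, ?_, ?_, fun S => ?_⟩
  · intro p hp
    obtain ⟨c, hc⟩ := hBm p hp
    refine ⟨c, fun β hβ i => ?_⟩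
    have h1 := hc (MvPolynomial.mem_support_iff.1 hβ)
    have h2 := congrFun h1 i
    have h3 : (β.sum fun (si : Fin δ × Fin s) (a : ℕ) => a • (Pi.single si.1 1 : Fin δ → ℕ)) =
        ∑ si, β si • (Pi.single si.1 1 : Fin δ → ℕ) :=
      Finsupp.sum_fintype _ _ fun si => zero_smul ℕ _
    rw [Finsupp.weight_apply, h3, Finset.sum_apply, Fintype.sum_prod_type] at h2
    rw [← h2, Finset.sum_eq_single i]
    · refine Finset.sum_congr rfl fun j _ => ?_
      simp
    · intro k _ hk
      refine Finset.sum_eq_zero fun j _ => ?_
      simp [Pi.single_eq_of_ne (Ne.symm hk)]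
    · intro h
      exact absurd (Finset.mem_univ i) h
  · intro E _ _ x h1 h2 h3
    exact hBs E x h1 h2 h3
  obtain ⟨C, hC0, hC⟩ := hB S
  refine ⟨C, ?_⟩
  intro I L _ _ _ hrL x hx hGx hwx
  have hN1 : (1 : ℝ) ≤ Module.finrank ℚ L := by
    exact_mod_cast (Module.finrank_pos : 0 < Module.finrank ℚ L)
  have hN0 : (0 : ℝ) < Module.finrank ℚ L := by linarith
  have hCN : C ≤ C * Module.finrank ℚ L := le_mul_of_one_le_right hC0 hN1
  have h1 := hC I L hrL x hx hGx (fun i => by
    have := hwx i
    unfold On at this
    push Not at this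
    exact this)
  have hprox : ∀ (v : Place K) (i : Fin q), proximity v (e i) (w i) x =
      (∑ u ∈ Pool.Agent.NH28.ab L v, Pool.Agent.W180.OP.wt u *
        Pool.Agent.H426.Sub.slam (Pool.Agent.W180.OP.av u) (e i) (w i) x) /
        Module.finrank ℚ L := by
    intro v i
    unfold proximity
    have hset : {u : Place L | Over v u} = ↑(Pool.Agent.NH28.ab L v) := by
      ext u
      exact hover L v u
    rw [hset, finsum_mem_coe_finset]
    congr 1
    exact Finset.sum_congr rfl fun u _ => by rw [hweil, hwt]
  have e1 : ∑ v ∈ S, ∑ i ∈ I v, γ i * proximity v (e i) (w i) x =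
      (∑ i, γ i * Pool.Agent.H426.Sub.sig S I i L (e i) (w i) x) / Module.finrank ℚ L := by
    rw [Finset.sum_div]
    unfold Pool.Agent.H426.Sub.sig
    have h2 : ∀ i, γ i * (∑ v ∈ S, if i ∈ I v then ∑ u ∈ Pool.Agent.NH28.ab L v,
        Pool.Agent.W180.OP.wt u * Pool.Agent.H426.Sub.slam (Pool.Agent.W180.OP.av u) (e i) (w i) x
        else 0) / Module.finrank ℚ L =
        ∑ v ∈ S, if i ∈ I v then γ i * proximity v (e i) (w i) x else 0 := by
      intro i
      rw [Finset.mul_sum, Finset.sum_div]
      refine Finset.sum_congr rfl fun v _ => ?_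
      split_ifs
      · rw [hprox]
        ring
      · ring
    simp_rw [h2]
    rw [Finset.sum_comm]
    refine Finset.sum_congr rfl fun v _ => ?_
    rw [← Finset.sum_filter]
    congr 1
    ext i
    simp
  rw [e1]
  refine ⟨fun t ht => ?_, fun hBx => ?_⟩
  · have h2 := h1.1 t ht
    rw [div_le_iff₀ hN0]
    have e2 : ((δ + min (t : ℝ) δ + ε) * height x + C) * Module.finrank ℚ L =
        (((1 : ℕ) : ℝ) * δ + min (t : ℝ) (((1 : ℕ) : ℝ) * δ) + ε) * Height.logHeight x +
          C * Module.finrank ℚ L := by
      unfold height
      rw [Nat.cast_one, one_mul]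
      field_simp
    rw [e2]
    linarith
  · have h2 := h1.2 (by
      unfold ConjugatesOn at hBx
      push Not at hBx
      exact hBx)
    rw [div_le_iff₀ hN0]
    have e2 : ((2 * δ - μ + 1 + ε) * height x + C) * Module.finrank ℚ L =
        (2 * (((1 : ℕ) : ℝ) * δ) - μ + 1 + ε) * Height.logHeight x +
          C * Module.finrank ℚ L := by
      unfold height
      rw [Nat.cast_one, one_mul]
      field_simp
    rw [e2]
    linarith

end Pool.Agent.Results.MP_6f1c57_nt.FewTargetsOnCurves
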