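import Pool.Agent.H431.OC.Fin

/-!
# The height inequality for points of bounded degree: one curve suffices

`SingleCurve k f`: the inequality of the problem for ONE hyperelliptic curve `C : y ^ 2 = f(x)` over
one number field `k` and `D = 0`, for the points of bounded degree. If `f` has degree `n ≥ 5` and no
multiple roots, then `C` has genus `g = [(n - 1) / 2] ≥ 2` and the canonical height is
`h_K(P) = (g - 1) h(x(P)) + O(1)`.

`CurveInequality r`: the inequality for ALL smooth projective curves `C` over all number fields `k`
and all reduced divisors `D` on `C`, for the points of degree at most `r` over `ℚ`, even with the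
truncated counting function: `h_K + h_D ≤ N_S^{(1)}(D, P) + ε h + d(P) + c`. The curve is given by a
finite map `t : C → ℙ¹` over `k` which is unramified outside the fibres over `0`, `1`, `-1` and for
which `D` is contained in these fibres (by Belyi's theorem there is such a map for all `C` and
`D`). Let `N` be the degree of `t` and `A` the ring of the functions on `C` with poles only over
`∞`: a Dedekind domain, finite over `k[t]`. If `F_j` is the ideal of the points over the `j`-th of the
points `0`, `1`, `-1` which are not points of `D`, then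
`deg (K_C + D) / N = 1 - (∑_j dim (A / F_j)) / N`.
The points `P` of `C` (not over `∞`) over a number field `L` are the homomorphisms `A → L` over `k`.
-/

set_option autoImplicit false

namespace Pool.Agent.Results.MP_6f1c57_nt.OneHyperellipticCurve

open Polynomial IsDedekindDomain NumberField

/-- The absolute logarithmic height of the point `x` of the line. -/
noncomputable def height {L : Type} [Field L] [NumberField L] (x : L) : ℝ :=
  Height.logHeight₁ x / Module.finrank ℚ L

/-- The (absolute) logarithmic discriminant `d(L) = log |disc L| / [L : ℚ]`. -/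
noncomputable def logDisc (L : Type) [Field L] [NumberField L] : ℝ :=
  Real.log |(NumberField.discr L : ℝ)| / Module.finrank ℚ L

/-- The genus `[(n - 1) / 2]` of the curve `y ^ 2 = f(x)`, where `n` is the degree of `f`. -/
noncomputable def genus {k : Type} [Field k] (f : k[X]) : ℕ := (f.natDegree - 1) / 2

/-- The inequality of the problem with `D = 0` for the curve `y ^ 2 = f(x)` over `k`: for all `ν` and
`ε > 0` there is `c` such that `(g - 1 - ε) h(x) ≤ d(L) + c` for all number fields `L ⊇ k` of degree
at most `ν` and all points `(x, y)` of the curve over `L`. -/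
def SingleCurve (k : Type) [Field k] [NumberField k] (f : k[X]) : Prop :=
  ∀ (ν : ℕ) (ε : ℝ), 0 < ε → ∃ c : ℝ,
    ∀ (L : Type) [Field L] [NumberField L] [Algebra k L], Module.finrank ℚ L ≤ ν →
    ∀ x y : L, y ^ 2 = aeval x f → ((genus f : ℝ) - 1 - ε) * height x ≤ logDisc L + c

/-- The points `0`, `1`, `-1` of the line. -/
def branch (k : Type) [Field k] : Fin 3 → k := ![0, 1, -1]

/-- The function `t` on the curve with the ring of functions `A`. -/
noncomputable def coord (k A : Type) [Field k] [CommRing A] [Algebra k[X] A] : A :=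
  algebraMap k[X] A X

/-- The point `P = φ` of the curve over `L` and the divisor `D` meet at the prime `w` of `L`: here
the part `D_j` of `D` over the `j`-th of the points `0`, `1`, `-1` has the equations
`y_{j 1} = ⋯ = y_{j u_j} = 0`, and `|t(P)|_w ≤ 1` and for some `j` one has `|t(P) - a_j|_w < 1`
and `|y_{j i}(P)|_w < 1` for all `i`. -/
def MeetsAt {k A L : Type} [Field k] [Field L] [NumberField L] [Algebra k L] [CommRing A]
    [Algebra k A] [Algebra k[X] A] (u : Fin 3 → ℕ) (y : ∀ j, Fin (u j) → A) (φ : A →ₐ[k] L)
    (w : HeightOneSpectrum (𝓞 L)) : Prop :=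
  w.valuation L (φ (coord k A)) ≤ 1 ∧
    ∃ j, w.valuation L (φ (coord k A) - algebraMap k L (branch k j)) < 1 ∧
      ∀ i, w.valuation L (φ (y j i)) < 1

open Classical in
/-- The (absolute) truncated counting function `N_S^{(1)}(D, P)`: the sum of `log N(w) / [L : ℚ]`
over the primes `w` of `L`, not above primes in `S`, at which `P` and `D` meet. Every such prime is
counted once. -/
noncomputable def truncated {k A L : Type} [Field k] [NumberField k] [Field L] [NumberField L]
    [Algebra k L] [CommRing A] [Algebra k A] [Algebra k[X] A]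
    (S : Finset (HeightOneSpectrum (𝓞 k))) (u : Fin 3 → ℕ) (y : ∀ j, Fin (u j) → A)
    (φ : A →ₐ[k] L) : ℝ :=
  (∑ᶠ w : HeightOneSpectrum (𝓞 L),
      if (∀ p ∈ S, w.asIdeal.comap (algebraMap (𝓞 k) (𝓞 L)) ≠ p.asIdeal) ∧ MeetsAt u y φ w
      then Real.log (Ideal.absNorm w.asIdeal) else 0) / Module.finrank ℚ L

/-- `1 - (∑_j dim (A / F_j)) / N`, where `N` is the rank of `A` over `k[t]`: the number
`deg (K_C + D) / N` for the curve `C`. -/
noncomputable def degree (k : Type) {A : Type} [Field k] [CommRing A] [Algebra k A]
    [Algebra k[X] A] (F : Fin 3 → Ideal A) : ℝ :=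
  1 - (∑ j, (Module.finrank k (A ⧸ F j) : ℝ)) / Module.finrank k[X] A

/-- The truncated Vojta inequality with discriminant term for the points of degree at most `r`
(over `ℚ`) on all curves over all number fields and all reduced divisors: for all number fields `k`,
all Dedekind domains `A`, finite over `k[t]` and containing it, all closed subsets `D_j`, given by
`y_{j 1} = ⋯ = y_{j u_j} = 0`, and ideals `F_j ≠ 0` of `A` such that `D_j` and the zeros of `F_j`
together contain the fibre over the `j`-th of the points `0`, `1`, `-1`, all finite sets `S` of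
primes of `k` and all `κ > 0` there is `c` such that all points `P = φ` over all number fields
`L ⊇ k` of degree at most `r`, with `t(P)` different from `0`, `1`, `-1`, satisfy
`(deg (K_C + D) / N - κ) h(t(P)) ≤ N_S^{(1)}(D, P) + d(L) + c`. -/
def CurveInequality (r : ℕ) : Prop :=
  ∀ (k A : Type) [Field k] [NumberField k] [CommRing A] [IsDedekindDomain A] [Algebra k A]
    [Algebra k[X] A] [IsScalarTower k k[X] A] [Module.Finite k[X] A] [FaithfulSMul k[X] A]
    (u : Fin 3 → ℕ) (y : ∀ j, Fin (u j) → A) (F : Fin 3 → Ideal A), (∀ j, F j ≠ ⊥) →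
    (∀ j i, ∀ e ∈ F j, y j i * e ∈
      (Ideal.span {coord k A - algebraMap k A (branch k j)}).radical) →
    ∀ (S : Finset (HeightOneSpectrum (𝓞 k))) (κ : ℝ), 0 < κ → ∃ c : ℝ,
      ∀ (L : Type) [Field L] [NumberField L] [Algebra k L], Module.finrank ℚ L ≤ r →
      ∀ φ : A →ₐ[k] L, (∀ j, φ (coord k A) ≠ algebraMap k L (branch k j)) →
        (degree k F - κ) * height (φ (coord k A)) ≤ truncated S u y φ + logDisc L + c

open Pool.Agent.H431.OC

theorem to_One {k : Type} [Field k] [NumberField k] {f : k[X]} (h : SingleCurve k f) :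
    One k f := by
  intro ν ε hε
  obtain ⟨c, hc⟩ := h ν ε hε
  refine ⟨max c 0, le_max_right _ _, fun M _ _ _ hM x y hxy => ?_⟩
  have h1 := hc M hM x y hxy
  unfold height logDisc genus at h1
  have hd : (0 : ℝ) < Module.finrank ℚ M := by exact_mod_cast Module.finrank_pos
  have h2 := mul_le_mul_of_nonneg_right h1 hd.le
  have e1 : ((((f.natDegree - 1) / 2 : ℕ) : ℝ) - 1 - ε) *
      (Height.logHeight₁ x / Module.finrank ℚ M) * Module.finrank ℚ M =
      ((((f.natDegree - 1) / 2 : ℕ) : ℝ) - 1 - ε) * Height.logHeight₁ x := by
    field_simp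
  have e2 : (Real.log |(NumberField.discr M : ℝ)| / Module.finrank ℚ M + c) *
      Module.finrank ℚ M = Real.log |(NumberField.discr M : ℝ)| + Module.finrank ℚ M * c := by
    field_simp
  rw [e1, e2] at h2
  refine h2.trans ?_
  unfold DD
  have : (Module.finrank ℚ M : ℝ) * c ≤ Module.finrank ℚ M * max c 0 :=
    mul_le_mul_of_nonneg_left (le_max_left _ _) hd.le
  linarith

/-- the Fermat curves -/
theorem to_fermat {k : Type} [Field k] [NumberField k] {f : k[X]} (hf : Squarefree f)
    (h5 : 5 ≤ f.natDegree) (h : SingleCurve k f) (r : ℕ) {δ : ℝ} (hδ : 0 < δ) :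
    ∃ l : ℕ, 1 ≤ l ∧ Pool.Agent.Results.MP_71c16a_nt.FermatCurvesSuffice.FermatInequality 0 l
      (r * l ^ 2) (δ * l) := by
  obtain ⟨j, hj⟩ := exists_nat_gt (1 / δ)
  obtain ⟨l, hl⟩ : ∃ l : ℕ, l = 4 * 2 ^ j := ⟨_, rfl⟩
  obtain ⟨C, hC⟩ := fermat_of_One hf h5 (to_One h) j (r * l ^ 2)
  rw [← hl] at hC
  refine ⟨l, ?_, C, fun M _ _ hM x y u hxy _ => ?_⟩
  · rw [hl]
    have : 0 < 4 * 2 ^ j := by positivity
    omega
  have h1 := hC M hM x y hxy
  have hd : (0 : ℝ) < Module.finrank ℚ M := by exact_mod_cast Module.finrank_pos
  have hx : 0 ≤ Height.logHeight₁ x := Height.zero_le_logHeight₁ _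
  have h2 : 4 ≤ δ * l := by
    have h3 : (j : ℝ) ≤ 2 ^ j := by exact_mod_cast Nat.lt_two_pow_self.le
    have h4 : 1 / δ ≤ 2 ^ j := hj.le.trans h3
    rw [div_le_iff₀ hδ] at h4
    rw [hl]
    push_cast
    nlinarith
  have h3 : ((l : ℝ) - δ * l) * Height.logHeight₁ x ≤
      Real.log |(NumberField.discr M : ℝ)| + Module.finrank ℚ M * C :=
    (mul_le_mul_of_nonneg_right (by linarith) hx).trans h1
  unfold Pool.Agent.Results.MP_71c16a_nt.FermatCurvesSuffice.height
    Pool.Agent.Results.MP_71c16a_nt.FermatCurvesSuffice.logDisc
  have h4 := div_le_div_of_nonneg_right h3 hd.le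
  refine le_trans (le_of_eq ?_) (h4.trans (le_of_eq ?_))
  · ring
  · field_simp

/-- **The height inequality for all curves follows from the inequality for one curve.**
Let `k` be a number field and `f` a polynomial over `k` of degree at least `5` without multiple
roots. If the single hyperelliptic curve `y ^ 2 = f(x)` satisfies the inequality of the problem with
`D = 0` for the points of bounded degree, that is, `(g - 1 - ε) h(x) ≤ d(P) + c(ν, ε)`, then the
inequality holds for the points of bounded degree on all curves over all number fields, for all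
reduced divisors and all `S`, and with the truncated counting function. -/
theorem result (k : Type) [Field k] [NumberField k] (f : k[X]) (hf : Squarefree f)
    (h5 : 5 ≤ f.natDegree) (h : SingleCurve k f) (r : ℕ) : CurveInequality r :=
  (Pool.Agent.Results.MP_71c16a_nt.FermatCurvesSuffice.result 0).1 r fun _ hδ =>
    to_fermat hf h5 h r hδ

end Pool.Agent.Results.MP_6f1c57_nt.OneHyperellipticCurve
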